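import Pool.Agent.Work.MP_6985d1_gg_helper22.BIN
import Pool.Agent.Work.MP_6985d1_gg_helper22.FLIP
import Pool.Agent.Work.MP_6985d1_gg_helper22.SMO
import Pool.Agent.Work.MP_6985d1_gg_helper28.JSPEC
import Pool.Agent.Work.MP_6985d1_gg_helper28.LIFT
import Pool.Agent.Work.MP_6985d1_gg_helper28.PHNS
import Pool.Agent.Work.MP_6985d1_gg_helper48.CNT2
import Pool.Agent.Work.MP_6985d1_gg_helper48.PHW
import Pool.Agent.Work.MP_6985d1_gg_helper48.Small
import Pool.Agent.Work.MP_6985d1_gg_helper48.Main
import Pool.Agent.Work.MP_6985d1_gg_helper51.FIN0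
import Pool.Agent.Work.MP_6985d1_gg_helper51.GENS
import Pool.Agent.Work.MP_6985d1_gg_helper51.PLEN
import Pool.Agent.Work.MP_6985d1_gg_helper85.REC
import Pool.Agent.Work.MP_6985d1_gg_helper85.UP
import Pool.Agent.Work.MP_6985d1_gg_helper85.ERR
import Pool.Agent.Work.MP_6985d1_gg_helper87.JLEN
import Pool.Agent.Work.MP_6985d1_gg_helper87.LEN

/-!
# The growth of the first Grigorchuk group

The growth function of the first Grigorchuk group is equivalent to `exp (n ^ α)`, where
`α = log 2 / log l` and `l` is the positive root of `x ^ 3 = x ^ 2 + 2 x + 4`.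

Upper bound (Bartholdi): with suitable weights of the letters the two sections of an element of
weight `n` have total weight at most `η n + C`, `η = 2 / l`; at level `k` with `l ^ k` about `n`
the total weight of the sections is `O (2 ^ k)`.

Lower bound.  The substitution `zeta` gives words `fl j` of length at most `4 l ^ j` which fix the
first `j` letters of every word and change the next one.  A program of `2 ^ M` slots (the letter `c`
or nothing) separated by blocks of such flips (each used or not used), arranged as a ruler sequence,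
gives words of length `O (l ^ M)`.  The bit of a slot can be read off from the group element of the
remaining product by counting, modulo 2, the germs outside `b` at `111...`; the total number of
errors of this decoding is small on average, because the flips smooth the position of `111...`.
Counting gives at least `2 ^ (2 ^ M / 2)` group elements.
-/

set_option autoImplicit false

namespace Pool.Agent.Results.MP_6985d1_al.ExactGrowth

open GrigGrowth

theorem flip : Stmt_FLIP := helper22.stmt_FLIP helper28.stmt_LIFT

theorem root : Stmt_ROOT := helper48.stmt_ROOT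

theorem jspec : Stmt_JSPEC :=
  helper28.stmt_JSPEC (helper28.stmt_PHN helper48.stmt_PHSEC helper48.stmt_PHW)
    (helper28.stmt_PHS helper48.stmt_PHSEC helper48.stmt_PHW)

theorem err : Stmt_ERR :=
  helper85.stmt_ERR (helper85.stmt_REC (helper22.stmt_SMO flip)) helper87.stmt_JLEN jspec
    helper48.stmt_JLT helper48.stmt_GEO

theorem low : Stmt_LOW :=
  helper22.stmt_LOW helper48.stmt_CNT1 (helper48.stmt_CNT2 (helper48.stmt_INJ helper48.stmt_PHW))
    err helper22.stmt_BIN
    (helper51.stmt_PLEN root (helper87.stmt_LEN root) helper48.stmt_JLT) helper48.stmt_BALLFIN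

theorem fin0 : Stmt_FIN0 :=
  helper51.stmt_FIN0 root helper85.stmt_UP low helper48.stmt_BALLFIN

/-- The growth function of the first Grigorchuk group with respect to every finite symmetric
generating set is equivalent to the integer part of `exp (n ^ α)`, `α = log 2 / log l`, where `l` is
the only positive root of `x ^ 3 = x ^ 2 + 2 x + 4`. -/
theorem result :
    ∃ l : ℝ, (0 < l ∧ l ^ 3 = l ^ 2 + 2 * l + 4) ∧
      (∀ l' : ℝ, 0 < l' → l' ^ 3 = l' ^ 2 + 2 * l' + 4 → l' = l) ∧
      ∀ S : Set Grig, S.Finite → (∀ x ∈ S, x⁻¹ ∈ S) → Subgroup.closure S = ⊤ →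
        Preceq (growth S) (fun n => ⌊Real.exp ((n : ℝ) ^ (Real.log 2 / Real.log l))⌋₊) ∧
        Preceq (fun n => ⌊Real.exp ((n : ℝ) ^ (Real.log 2 / Real.log l))⌋₊) (growth S) := by
  obtain ⟨l, hl, hu, h⟩ := helper48.main root fin0 helper51.stmt_GENS
  exact ⟨l, hl, hu, h⟩

end Pool.Agent.Results.MP_6985d1_al.ExactGrowth
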